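import Pool.Agent.helper18.PC2.HOMQ
import Pool.Agent.helper27.PC2.RRQ

/-!
# PC project, second half: HK, traces of products of Coxeter elements of symmetric groups
-/

namespace Pool.Agent.helper27.PC

open Module Polynomial

/-! ### block matrices -/

section blk

variable {K : Type*} [Field K] {n : ℕ} {S : St}

theorem HK_ne {M : Matrix (allPaths n S) (allPaths n S) K} (hM : IsBlk n S M)
    {w w' : allPaths n S} (h : M w w' ≠ 0) : ∃ S', w.1 ∈ paths n S S' ∧ w'.1 ∈ paths n S S' := by
  by_contra hc
  push Not at hc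
  exact h (hM w w' fun S' hS' => hc S' hS'.1 hS'.2)

theorem HK_blk_mul {M M' : Matrix (allPaths n S) (allPaths n S) K} (hM : IsBlk n S M)
    (hM' : IsBlk n S M') : IsBlk n S (M * M') := by
  intro w w' h
  rw [Matrix.mul_apply]
  refine Finset.sum_eq_zero fun u _ => ?_
  by_contra hc
  obtain ⟨S₁, h1, h2⟩ := HK_ne hM (left_ne_zero_of_mul hc)
  obtain ⟨S₂, h3, h4⟩ := HK_ne hM' (right_ne_zero_of_mul hc)
  have := SURJ_end_unique n S S₁ S₂ u.1 h2 h3
  subst this
  exact h S₁ ⟨h1, h4⟩

theorem HK_blk_one : IsBlk n S (1 : Matrix (allPaths n S) (allPaths n S) K) := by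
  intro w w' h
  rw [Matrix.one_apply, if_neg]
  rintro rfl
  obtain ⟨S', hS'⟩ := (SURJ_mem_all n S w.1).mp w.2
  exact h S' ⟨hS', hS'⟩

theorem HK_blk_single {w w' : allPaths n S} {S' : St} (h : w.1 ∈ paths n S S')
    (h' : w'.1 ∈ paths n S S') : IsBlk n S (Matrix.single w w' (1 : K)) := by
  intro u u' hu
  rw [Matrix.single_apply, if_neg]
  rintro ⟨rfl, rfl⟩
  exact hu S' ⟨h, h'⟩

theorem HK_blk_mat {φ : Module.End K (List Lab →₀ K)} (h : ∀ S', Stab (paths n S S') φ) :
    IsBlk n S (mat n S φ) := by
  intro w w' hw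
  by_contra hc
  obtain ⟨S', hS'⟩ := (SURJ_mem_all n S w'.1).mp w'.2
  exact hw S' ⟨h S' w'.1 hS' w.1 hc, hS'⟩

variable {R V : Type*} [AddCommGroup V] [Module K V] [Module.Finite K V]

theorem HK_tr_eq (φ : Matrix (allPaths n S) (allPaths n S) K →ₗ[K] Module.End K V)
    (hmul : ∀ M M', IsBlk n S M → IsBlk n S M' → φ (M * M') = φ M * φ M') (X : Module.End K V)
    (hX : ∀ M, Commute (φ M) X) {w w' : allPaths n S} {S' : St} (h : w.1 ∈ paths n S S')
    (h' : w'.1 ∈ paths n S S') :
    LinearMap.trace K V (φ (Matrix.single w w 1) * X) =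
      LinearMap.trace K V (φ (Matrix.single w' w' 1) * X) := by
  have e1 : Matrix.single w w (1 : K) = Matrix.single w w' 1 * Matrix.single w' w 1 := by
    rw [Matrix.single_mul_single_same, one_mul]
  have e2 : Matrix.single w' w' (1 : K) = Matrix.single w' w 1 * Matrix.single w w' 1 := by
    rw [Matrix.single_mul_single_same, one_mul]
  rw [e1, e2, hmul _ _ (HK_blk_single h h') (HK_blk_single h' h),
    hmul _ _ (HK_blk_single h' h) (HK_blk_single h h'), mul_assoc, LinearMap.trace_mul_comm,
    mul_assoc, mul_assoc, (hX _).eq]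

theorem HK_tr_ne (φ : Matrix (allPaths n S) (allPaths n S) K →ₗ[K] Module.End K V)
    (hmul : ∀ M M', IsBlk n S M → IsBlk n S M' → φ (M * M') = φ M * φ M') (X : Module.End K V)
    (hX : ∀ M, Commute (φ M) X) {w w' : allPaths n S} {S' : St} (h : w.1 ∈ paths n S S')
    (h' : w'.1 ∈ paths n S S') (hne : w ≠ w') :
    LinearMap.trace K V (φ (Matrix.single w w' 1) * X) = 0 := by
  have e1 : Matrix.single w w' (1 : K) = Matrix.single w w 1 * Matrix.single w w' 1 := by
    rw [Matrix.single_mul_single_same, one_mul]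
  rw [e1, hmul _ _ (HK_blk_single h h) (HK_blk_single h h'), mul_assoc, LinearMap.trace_mul_comm,
    mul_assoc, ← (hX _).eq, ← mul_assoc, ← hmul _ _ (HK_blk_single h h') (HK_blk_single h h),
    Matrix.single_mul_single_of_ne _ _ _ _ (Ne.symm hne), map_zero, zero_mul, map_zero]

theorem HK_tr (φ : Matrix (allPaths n S) (allPaths n S) K →ₗ[K] Module.End K V)
    (hmul : ∀ M M', IsBlk n S M → IsBlk n S M' → φ (M * M') = φ M * φ M') (X : Module.End K V)
    (hX : ∀ M, Commute (φ M) X) (M : Matrix (allPaths n S) (allPaths n S) K) (hM : IsBlk n S M) :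
    LinearMap.trace K V (φ M * X) =
      ∑ w, M w w * LinearMap.trace K V (φ (Matrix.single w w 1) * X) := by
  conv_lhs => rw [Matrix.matrix_eq_sum_single M]
  rw [map_sum, Finset.sum_mul, map_sum]
  refine Finset.sum_congr rfl fun w _ => ?_
  rw [map_sum, Finset.sum_mul, map_sum]
  have h1 : ∀ w', LinearMap.trace K V (φ (Matrix.single w w' (M w w')) * X) =
      M w w' * LinearMap.trace K V (φ (Matrix.single w w' 1) * X) := by
    intro w'
    have : Matrix.single w w' (M w w') = M w w' • Matrix.single w w' (1 : K) := by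
      rw [Matrix.smul_single, smul_eq_mul, mul_one]
    rw [this, map_smul, smul_mul_assoc, map_smul, smul_eq_mul]
  rw [Finset.sum_eq_single w]
  · exact h1 w
  · intro w' _ hne
    rw [h1]
    by_cases h : M w w' = 0
    · rw [h, zero_mul]
    · obtain ⟨S', h2, h3⟩ := HK_ne hM h
      rw [HK_tr_ne φ hmul X hX h2 h3 (Ne.symm hne), mul_zero]
  · intro h; exact absurd (Finset.mem_univ _) h

end blk

/-! ### the block of one symmetric group -/

section one

theorem HK_phi (hHOMQ : HOMQ_stmt) (K : Type) [Field K] (v : K) (hv : Generic v) (V : Type)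
    [AddCommGroup V] [Module K V] (a : ℕ) (ha : 1 ≤ a) (σ : ℕ → Module.End K V)
    (hσ : RelA (v - v⁻¹) a σ) :
    ∃ φ : Matrix (allPaths a (vac a)) (allPaths a (vac a)) K →ₗ[K] Module.End K V, φ 1 = 1 ∧
      (∀ M M', IsBlk a (vac a) M → IsBlk a (vac a) M' → φ (M * M') = φ M * φ M') ∧
      φ (mat a (vac a) (opQ v v a 0)) = algebraMap K (Module.End K V) v ∧
      (∀ i, 1 ≤ i → i < a → φ (mat a (vac a) (opQ v v a i)) = σ i) ∧
      ∀ X : Module.End K V, (∀ i, 1 ≤ i → i < a → Commute (σ i) X) → ∀ M, Commute (φ M) X := by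
  classical
  set R := Algebra.adjoin K (σ '' {i | 1 ≤ i ∧ i < a}) with hR
  have hmem : ∀ i, 1 ≤ i → i < a → σ i ∈ R := fun i h1 h2 =>
    Algebra.subset_adjoin ⟨i, ⟨h1, h2⟩, rfl⟩
  set τ : ℕ → R := fun i => if h : 1 ≤ i ∧ i < a then ⟨σ i, hmem i h.1 h.2⟩ else
    algebraMap K R v with hτ
  have hv0 : v ≠ 0 := hv.1
  have hτ0 : τ 0 = algebraMap K R v := by
    rw [hτ]; exact dif_neg (by omega)
  have hτi : ∀ i, 1 ≤ i → i < a → (τ i : Module.End K V) = σ i := by
    intro i h1 h2
    rw [hτ]
    simp only [dif_pos (And.intro h1 h2)]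
  have hrel : RelQ (v - v⁻¹) (v - v⁻¹) a τ := by
    refine ⟨?_, ?_, ?_, ?_, ?_⟩
    · intro _
      rw [hτ0, ← map_mul, Algebra.smul_def, ← map_mul, ← map_one (algebraMap K R), ← map_add]
      congr 1
      field_simp
      ring
    · intro i h1 h2
      apply Subtype.ext
      have := hσ.quad i h1 h2
      rw [Subalgebra.coe_mul, Subalgebra.coe_add, Subalgebra.coe_smul, hτi i h1 h2, this]
      rfl
    · intro i h1 h2
      apply Subtype.ext
      rw [Subalgebra.coe_mul, Subalgebra.coe_mul, Subalgebra.coe_mul, Subalgebra.coe_mul,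
        hτi i h1 (by omega), hτi (i + 1) (by omega) h2]
      exact hσ.braid i h1 h2
    · intro _
      rw [hτ0]
      have hc : algebraMap K R v * τ 1 = τ 1 * algebraMap K R v := Algebra.commutes v (τ 1)
      calc algebraMap K R v * τ 1 * algebraMap K R v * τ 1
          = (algebraMap K R v * τ 1) * (algebraMap K R v * τ 1) := by
            rw [mul_assoc (algebraMap K R v * τ 1)]
        _ = (τ 1 * algebraMap K R v) * (τ 1 * algebraMap K R v) := by rw [hc]
        _ = τ 1 * algebraMap K R v * τ 1 * algebraMap K R v := by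
            rw [mul_assoc (τ 1 * algebraMap K R v)]
    · intro i j hij hj
      rcases Nat.eq_zero_or_pos i with h0 | h0
      · subst h0
        rw [hτ0]
        exact Algebra.commutes v (τ j)
      · apply Subtype.ext
        rw [Subalgebra.coe_mul, Subalgebra.coe_mul, hτi i h0 (by omega), hτi j (by omega) hj]
        exact hσ.comm i j h0 hij hj
  obtain ⟨φ₀, h1, h2, h3⟩ := hHOMQ K v v (GenQ_v hv) a a ha le_rfl R τ hrel
  refine ⟨R.val.toLinearMap ∘ₗ φ₀, ?_, ?_, ?_, ?_, ?_⟩
  · rw [LinearMap.comp_apply, h1]; rfl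
  · intro M M' hM hM'
    rw [LinearMap.comp_apply, h2 M M' hM hM']; rfl
  · rw [LinearMap.comp_apply, h3 0 (by omega), hτ0]; rfl
  · intro i hi hi'
    rw [LinearMap.comp_apply, h3 i hi']
    exact hτi i hi hi'
  · intro X hX M
    have hle : R ≤ Subalgebra.centralizer K {X} := by
      rw [hR]
      refine Algebra.adjoin_le ?_
      rintro _ ⟨i, ⟨hi, hi'⟩, rfl⟩
      rw [SetLike.mem_coe, Subalgebra.mem_centralizer_iff]
      intro g hg
      rw [Set.mem_singleton_iff] at hg
      subst hg
      exact (hX i hi hi').symm.eq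
    have hm := hle (φ₀ M).2
    rw [Subalgebra.mem_centralizer_iff] at hm
    exact (hm X rfl).symm

theorem HK_word {K : Type} [Field K] {v : K} (hv : Generic v) {V : Type}
    [AddCommGroup V] [Module K V] (a : ℕ)
    (φ : Matrix (allPaths a (vac a)) (allPaths a (vac a)) K →ₗ[K] Module.End K V) (h1 : φ 1 = 1)
    (hmul : ∀ M M', IsBlk a (vac a) M → IsBlk a (vac a) M' → φ (M * M') = φ M * φ M')
    (l : List ℕ) :
    IsBlk a (vac a) (l.map fun i => mat a (vac a) (opQ v v a i)).prod ∧
      φ (l.map fun i => mat a (vac a) (opQ v v a i)).prod =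
        (l.map fun i => φ (mat a (vac a) (opQ v v a i))).prod := by
  induction l with
  | nil => exact ⟨HK_blk_one, h1⟩
  | cons i l ih =>
    have hb : IsBlk a (vac a) (mat a (vac a) (opQ v v a i)) :=
      HK_blk_mat fun S' => Stab_opQ (GenQ_v hv) a a (vac a) S' i
    rw [List.map_cons, List.prod_cons, List.map_cons, List.prod_cons]
    exact ⟨HK_blk_mul hb ih.1, by rw [hmul _ _ hb ih.1, ih.2]⟩

end one

/-! ### words that end in a hook -/

/-- sum of the places of the beads of the first component -/
def HK_f (S : St) : ℕ := ∑ y ∈ S.filter (fun y => y.1 = true), y.2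

theorem HK_f_move (S : St) (l : Lab) (a : ℕ) (ha : 1 ≤ a) (hl : l ∈ addable a S) :
    HK_f (move a S l) = HK_f S + if l.1 = true then a else 0 := by
  unfold addable at hl
  rw [Finset.mem_filter] at hl
  obtain ⟨h1, h2⟩ := hl
  unfold HK_f move
  have hup : up a l ≠ l := by
    intro h
    have := congrArg Prod.snd h
    simp only [up] at this
    omega
  have h3 : up a l ∉ (S.erase l).filter (fun y => y.1 = true) := by
    rw [Finset.mem_filter, Finset.mem_erase]
    rintro ⟨⟨_, h⟩, _⟩
    exact h2 h
  by_cases h4 : l.1 = true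
  · rw [Finset.filter_insert, if_pos (show (up a l).1 = true from h4), Finset.sum_insert h3,
      Finset.filter_erase, if_pos h4]
    have h5 : l ∈ S.filter (fun y => y.1 = true) := Finset.mem_filter.2 ⟨h1, h4⟩
    rw [← Finset.add_sum_erase _ _ h5]
    simp only [up]
    omega
  · rw [Finset.filter_insert, if_neg (show ¬ (up a l).1 = true from h4), Finset.filter_erase,
      if_neg h4, Finset.erase_eq_of_notMem, add_zero]
    rw [Finset.mem_filter]
    exact fun h => h4 h.2

theorem HK_f_path : ∀ (n : ℕ) (S S' : St) (w : List Lab), w ∈ paths n S S' →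
    HK_f S ≤ HK_f S'
  | 0, S, S', w, h => by
      rw [SURJ_zero] at h
      rw [h.2]
  | n + 1, S, S', w, h => by
      obtain ⟨l, z, rfl, hl, hz⟩ := mem_paths_succ.1 h
      have h1 := HK_f_path n _ _ _ hz
      rw [HK_f_move S l 1 le_rfl hl] at h1
      omega

/-- the first letter of a word that ends in a hook of the second component -/
theorem HK_first (a j : ℕ) (ha : 1 ≤ a) (hj : j < a) (w : List Lab)
    (h : w ∈ paths a (vac a) (move a (vac a) (false, j))) : w[0]? = some (false, a - 1) := by
  obtain ⟨b, rfl⟩ : ∃ b, a = b + 1 := ⟨a - 1, by omega⟩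
  obtain ⟨l, z, rfl, hl, hz⟩ := mem_paths_succ.1 h
  have h1 := HK_f_path b _ _ _ hz
  rw [HK_f_move _ l 1 le_rfl hl] at h1
  have hadd : ((false, j) : Lab) ∈ addable (b + 1) (vac (b + 1)) := by
    unfold addable vac
    rw [Finset.mem_filter, Finset.mem_product, Finset.mem_product]
    refine ⟨⟨Finset.mem_univ _, Finset.mem_range.2 hj⟩, ?_⟩
    simp only [up, Finset.mem_range, not_and, not_lt]
    intro _
    omega
  rw [HK_f_move _ _ (b + 1) (by omega) hadd] at h1
  have h2 : l.2 + 1 = b + 1 := addable_vac hl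
  have h3 : l.1 = false := by
    by_contra hc
    rw [Bool.not_eq_false] at hc
    rw [if_pos hc, if_neg (by simp)] at h1
    omega
  rw [List.getElem?_cons_zero]
  congr 1
  exact Prod.ext h3 (by simpa using h2)

theorem HK_cnt (a j : ℕ) (b : Bool) (hj : j < a) : cnt (vac a) (b, j) a = a - 1 - j := by
  unfold cnt
  have h1 : (vac a).filter (fun y => y.1 = ((b, j) : Lab).1 ∧ ((b, j) : Lab).2 < y.2 ∧
      y.2 < ((b, j) : Lab).2 + a) = (Finset.Ioo j a).image (fun p => ((b, p) : Lab)) := by
    ext ⟨c, p⟩
    unfold vac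
    simp only [Finset.mem_filter, Finset.mem_product, Finset.mem_univ, true_and, Finset.mem_range,
      Finset.mem_image, Finset.mem_Ioo, Prod.mk.injEq]
    constructor
    · rintro ⟨h1, rfl, h3, h4⟩
      exact ⟨p, ⟨h3, h1⟩, rfl, rfl⟩
    · rintro ⟨q, ⟨h1, h2⟩, rfl, rfl⟩
      exact ⟨h2, rfl, h1, by omega⟩
  rw [h1, Finset.card_image_of_injective, Nat.card_Ioo]
  · omega
  · intro p q h
    exact (Prod.mk.inj h).2

/-! ### the letters of the words -/

theorem HK_letters : ∀ (α : List ℕ) (k : ℕ), (∀ a ∈ α, 1 ≤ a) → ∀ j ∈ posWord k α,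
    k < j ∧ j < k + α.sum
  | [], k, _, j, hj => by simp [posWord] at hj
  | a :: α, k, hα, j, hj => by
      have ha : 1 ≤ a := hα a (by simp)
      unfold posWord at hj
      rw [List.mem_append, List.mem_range'_1] at hj
      rw [List.sum_cons]
      rcases hj with hj | hj
      · omega
      · have := HK_letters α (k + a) (fun b hb => hα b (by simp [hb])) j hj
        omega

/-! ### the formula for one block -/

theorem HK_rib {K : Type*} [Field K] (w : Lab → K) (a : ℕ) (t : St → K)
    (ht : ∀ S', S' ∉ ends a (vac a) → t S' = 0) :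
    ∑ S' ∈ ends a (vac a), Rib w a (Finsupp.single (vac a) 1) S' * t S' =
      ∑ l ∈ addable a (vac a), (-1) ^ cnt (vac a) l a * w l * t (move a (vac a) l) := by
  have h1 : Rib w a (Finsupp.single (vac a) (1 : K)) =
      ∑ l ∈ addable a (vac a), Finsupp.single (move a (vac a) l) ((-1) ^ cnt (vac a) l a * w l) := by
    unfold Rib
    rw [Finsupp.linearCombination_single, one_smul]
  rw [h1]
  simp only [Finsupp.finsetSum_apply, Finset.sum_mul]
  rw [Finset.sum_comm]
  refine Finset.sum_congr rfl fun l _ => ?_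
  simp only [Finsupp.single_apply, ite_mul, zero_mul]
  rw [Finset.sum_ite_eq]
  split_ifs with h
  · rfl
  · rw [ht _ h, mul_zero]

theorem HK_zero {K : Type} [Field K] {v : K} (hv : Generic v) {V : Type}
    [AddCommGroup V] [Module K V] (a : ℕ) (ha : 1 ≤ a)
    (φ : Matrix (allPaths a (vac a)) (allPaths a (vac a)) K →ₗ[K] Module.End K V)
    (hmul : ∀ M M', IsBlk a (vac a) M → IsBlk a (vac a) M' → φ (M * M') = φ M * φ M')
    (h0 : φ (mat a (vac a) (opQ v v a 0)) = algebraMap K (Module.End K V) v)
    (w : allPaths a (vac a)) (hw : w.1[0]? = some (false, a - 1)) :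
    φ (Matrix.single w w 1) = 0 := by
  obtain ⟨S', hS'⟩ := (SURJ_mem_all a (vac a) w.1).mp w.2
  have hv0 : v ≠ 0 := hv.1
  have hb : IsBlk a (vac a) (mat a (vac a) (opQ v v a 0)) :=
    HK_blk_mat fun S' => Stab_opQ (GenQ_v hv) a a (vac a) S' 0
  have h1 := hmul _ _ (HK_blk_single (K := K) hS' hS') hb
  have h2 : Matrix.single w w (1 : K) * mat a (vac a) (opQ v v a 0) =
      (-v⁻¹) • Matrix.single w w (1 : K) := by
    have h3 : mat a (vac a) (opQ v v a 0) =
        Matrix.diagonal fun w : allPaths a (vac a) => (w.1[0]?).elim 0 (xQ v v a) :=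
      SURJ_matX (xQ v v a) a (vac a) 0
    rw [h3]
    ext i j
    rw [Matrix.mul_diagonal, Matrix.smul_apply, Matrix.single_apply]
    split_ifs with h
    · rw [← h.2, hw]
      simp only [Option.elim_some, xQ, Bool.false_eq_true, if_false, smul_eq_mul, mul_one, one_mul]
      have : (2 * (((a - 1 : ℕ) : ℤ) + 1 - (a : ℤ))) = 0 := by omega
      rw [this, zpow_zero, mul_one]
    · rw [zero_mul, smul_zero]
  rw [h2, map_smul, h0] at h1
  have h4 : φ (Matrix.single w w 1) * algebraMap K (Module.End K V) v =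
      v • φ (Matrix.single w w 1) := by
    rw [← Algebra.commutes, ← Algebra.smul_def]
  rw [h4] at h1
  have h5 : (v + v⁻¹) • φ (Matrix.single w w (1 : K)) = 0 := by
    rw [add_smul, ← h1, neg_smul, neg_add_cancel]
  rcases smul_eq_zero.1 h5 with h6 | h6
  · exfalso
    have h7 := hv.2.1 2
    apply h7
    have h8 : v * (v + v⁻¹) = 0 := by rw [h6, mul_zero]
    rw [mul_add, mul_inv_cancel₀ hv0] at h8
    have h9 : v ^ (2 : ℤ) = v * v := by
      rw [zpow_ofNat, sq]
    rw [h9]
    exact eq_neg_of_add_eq_zero_left h8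
  · exact h6

theorem HK_block (hHOMQ : HOMQ_stmt) (K : Type) [Field K] (v : K) (hv : Generic v) (V : Type)
    [AddCommGroup V] [Module K V] [Module.Finite K V] (a : ℕ) (ha : 1 ≤ a)
    (σ : ℕ → Module.End K V) (hσ : RelA (v - v⁻¹) a σ) :
    ∃ e : ℕ → Module.End K V, (∀ j, e j * e j = e j) ∧
      (∀ j (X : Module.End K V), (∀ i, 1 ≤ i → i < a → Commute (σ i) X) → Commute (e j) X) ∧
      ∀ X : Module.End K V, (∀ i, 1 ≤ i → i < a → Commute (σ i) X) →
        v ^ (a - 1) * LinearMap.trace K V (((List.range' 1 (a - 1)).map σ).prod * X) =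
          ∑ j ∈ Finset.range a, (-1) ^ (a - 1 - j) * (v ^ 2) ^ j *
            LinearMap.trace K V (e j * X) ∧
        v ^ (a - 1) * LinearMap.trace K V (((List.range' 1 (a - 1)).reverse.map σ).prod * X) =
          ∑ j ∈ Finset.range a, (-1) ^ (a - 1 - j) * (v ^ 2) ^ j *
            LinearMap.trace K V (e j * X) := by
  classical
  obtain ⟨φ, h1, hmul, h0, hi, hcomm⟩ := HK_phi hHOMQ K v hv V a ha σ hσ
  have hv0 : v ≠ 0 := hv.1
  have hmem : ∀ S', ∀ w ∈ paths a (vac a) S', w ∈ allPaths a (vac a) := fun S' w hw =>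
    (SURJ_mem_all _ _ _).mpr ⟨S', hw⟩
  set p : St → Module.End K V := fun S' => if h : (paths a (vac a) S').Nonempty then
    φ (Matrix.single ⟨h.choose, hmem S' _ h.choose_spec⟩ ⟨h.choose, hmem S' _ h.choose_spec⟩ 1)
    else 0 with hp
  have hpp : ∀ S', p S' * p S' = p S' := by
    intro S'
    rw [hp]
    by_cases h : (paths a (vac a) S').Nonempty
    · simp only [dif_pos h]
      rw [← hmul _ _ (HK_blk_single h.choose_spec h.choose_spec)
        (HK_blk_single h.choose_spec h.choose_spec), Matrix.single_mul_single_same, one_mul]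
    · simp only [dif_neg h, mul_zero]
  have hpc : ∀ S' (X : Module.End K V), (∀ i, 1 ≤ i → i < a → Commute (σ i) X) →
      Commute (p S') X := by
    intro S' X hX
    rw [hp]
    by_cases h : (paths a (vac a) S').Nonempty
    · simp only [dif_pos h]
      exact hcomm X hX _
    · simp only [dif_neg h]
      exact Commute.zero_left X
  refine ⟨fun j => p (move a (vac a) (true, j)), fun j => hpp _, fun j X hX => hpc _ X hX, ?_⟩
  intro X hX
  have hXc := hcomm X hX
  -- traces of the idempotents
  have hpt : ∀ S' (w : allPaths a (vac a)), w.1 ∈ paths a (vac a) S' →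
      LinearMap.trace K V (φ (Matrix.single w w 1) * X) = LinearMap.trace K V (p S' * X) := by
    intro S' w hw
    have h : (paths a (vac a) S').Nonempty := ⟨w.1, hw⟩
    rw [hp]
    simp only [dif_pos h]
    exact HK_tr_eq φ hmul X hXc hw h.choose_spec
  have htr : ∀ ψ : Module.End K (List Lab →₀ K), (∀ S', Stab (paths a (vac a) S') ψ) →
      LinearMap.trace K V (φ (mat a (vac a) ψ) * X) =
        ∑ S' ∈ ends a (vac a), trP a (vac a) S' ψ * LinearMap.trace K V (p S' * X) := by
    intro ψ hψ
    rw [HK_tr φ hmul X hXc _ (HK_blk_mat hψ)]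
    have h2 : ∀ w : allPaths a (vac a), mat a (vac a) ψ w w *
        LinearMap.trace K V (φ (Matrix.single w w 1) * X) =
        (fun w : List Lab => ψ (Finsupp.single w 1) w *
          LinearMap.trace K V (p (TR_E a (vac a) w) * X)) w.1 := by
      intro w
      rw [hpt _ w (TR_E_mem a (vac a) w.1 w.2)]
      rfl
    rw [Finset.sum_congr rfl fun w _ => h2 w, Finset.sum_coe_sort (allPaths a (vac a))
      (fun w : List Lab => ψ (Finsupp.single w 1) w *
          LinearMap.trace K V (p (TR_E a (vac a) w) * X)), TR_sum_all]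
    refine Finset.sum_congr rfl fun S' _ => ?_
    unfold trP
    rw [Finset.sum_mul]
    refine Finset.sum_congr rfl fun w hw => ?_
    rw [TR_E_eq a (vac a) S' w hw]
  set t : St → K := fun S' => LinearMap.trace K V (p S' * X) with ht
  have ht0 : ∀ S', S' ∉ ends a (vac a) → t S' = 0 := by
    intro S' hS'
    have : ¬ (paths a (vac a) S').Nonempty := by
      rintro ⟨w, hw⟩
      exact hS' (SURJ_ends _ _ _ _ hw)
    rw [ht]
    simp only [hp, dif_neg this, zero_mul, map_zero]
  have htf : ∀ j, j < a → t (move a (vac a) (false, j)) = 0 := by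
    intro j hj
    rw [ht, hp]
    by_cases h : (paths a (vac a) (move a (vac a) (false, j))).Nonempty
    · simp only [dif_pos h]
      rw [HK_zero hv a ha φ hmul h0 _ (HK_first a j ha hj _ h.choose_spec), zero_mul, map_zero]
    · simp only [dif_neg h, zero_mul, map_zero]
  have hadd : addable a (vac a) = Finset.univ ×ˢ Finset.range a := by
    unfold addable vac
    rw [Finset.filter_eq_self]
    intro l hl
    rw [Finset.mem_product, Finset.mem_range]
    simp only [up, not_and, not_lt]
    intro _
    omega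
  -- the sum over the hooks
  have hsum : ∑ S' ∈ ends a (vac a), v ^ (a - 1) * Rib (xQ v v a) a (Finsupp.single (vac a) 1) S' *
      t S' = v ^ (a - 1) * ∑ j ∈ Finset.range a, (-1) ^ (a - 1 - j) *
        (v * v ^ (2 * ((j : ℤ) + 1 - (a : ℤ)))) * t (move a (vac a) (true, j)) := by
    simp only [mul_assoc (v ^ (a - 1))]
    rw [← Finset.mul_sum, HK_rib _ a t ht0, hadd, Finset.sum_product, Fintype.sum_bool]
    congr 1
    have h3 : ∑ x ∈ Finset.range a, (-1) ^ cnt (vac a) (false, x) a * xQ v v a (false, x) *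
        t (move a (vac a) (false, x)) = 0 :=
      Finset.sum_eq_zero fun x hx => by rw [htf x (Finset.mem_range.1 hx), mul_zero]
    rw [h3, add_zero]
    refine Finset.sum_congr rfl fun j hj => ?_
    rw [HK_cnt a j true (Finset.mem_range.1 hj)]
    simp only [xQ, if_true]
  have hfin : ∀ T : K, v * T = ∑ S' ∈ ends a (vac a),
      v ^ (a - 1) * Rib (xQ v v a) a (Finsupp.single (vac a) 1) S' * t S' →
      v ^ (a - 1) * T = ∑ j ∈ Finset.range a, (-1) ^ (a - 1 - j) * (v ^ 2) ^ j *
        t (move a (vac a) (true, j)) := by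
    intro T hT
    apply mul_left_cancel₀ hv0
    rw [mul_left_comm, hT, hsum, Finset.mul_sum, Finset.mul_sum, Finset.mul_sum]
    refine Finset.sum_congr rfl fun j hj => ?_
    have h4 : v ^ (2 * ((j : ℤ) + 1 - (a : ℤ))) = (v ^ 2) ^ j / (v ^ (a - 1) * v ^ (a - 1)) := by
      have h5 : (2 * ((j : ℤ) + 1 - (a : ℤ))) = ((2 * j : ℕ) : ℤ) - ((2 * (a - 1) : ℕ) : ℤ) := by
        have : ((a - 1 : ℕ) : ℤ) = (a : ℤ) - 1 := by omega
        push_cast
        rw [this]
        ring
      rw [h5, zpow_sub₀ hv0, zpow_natCast, zpow_natCast, ← pow_mul, ← pow_add]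
      congr 2
      ring
    rw [h4]
    have h6 : v ^ (a - 1) ≠ 0 := pow_ne_zero _ hv0
    field_simp
  obtain ⟨b, rfl⟩ : ∃ b, a = b + 1 := ⟨a - 1, by omega⟩
  have hrange : List.range (b + 1) = 0 :: List.range' 1 b := by
    rw [List.range_eq_range', List.range'_succ]
  have hlt : ∀ i ∈ List.range (b + 1), i < b + 1 := fun i hi => List.mem_range.1 hi
  have hmap : ∀ l : List ℕ, (∀ i ∈ l, 1 ≤ i ∧ i < b + 1) →
      (l.map fun i => φ (mat (b + 1) (vac (b + 1)) (opQ v v (b + 1) i))) = l.map σ := by
    intro l hl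
    refine List.map_congr_left fun i hi' => ?_
    exact hi i (hl i hi').1 (hl i hi').2
  have hl1 : ∀ i ∈ List.range' 1 b, 1 ≤ i ∧ i < b + 1 := by
    intro i hi'
    rw [List.mem_range'_1] at hi'
    omega
  have hrep := (REPQ K v v (GenQ_v hv) (b + 1) (b + 1) ha le_rfl).2
  have hstab : ∀ (l : List ℕ) S', Stab (paths (b + 1) (vac (b + 1)) S') (opWQ v v (b + 1) l) := by
    intro l S'
    exact (matF_prod (opQ v v (b + 1)) l
      fun i _ => Stab_opQ (GenQ_v hv) (b + 1) (b + 1) (vac (b + 1)) S' i).1
  rw [Nat.add_sub_cancel] at hfin ⊢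
  constructor
  · refine hfin _ ?_
    have h7 := htr (opWQ v v (b + 1) (List.range (b + 1))) (hstab _)
    rw [hrep _ hlt, (HK_word hv (b + 1) φ h1 hmul _).2, hrange, List.map_cons, List.prod_cons, h0,
      hmap _ hl1, mul_assoc, ← Algebra.smul_def, map_smul, smul_eq_mul] at h7
    rw [h7]
    refine Finset.sum_congr rfl fun S' _ => ?_
    rw [← hrange, (RRQ K v v (GenQ_v hv) (b + 1) (b + 1) (vac (b + 1)) S' ha).1, Nat.add_sub_cancel]
  · refine hfin _ ?_
    have h7 := htr (opWQ v v (b + 1) (List.range (b + 1)).reverse) (hstab _)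
    rw [hrep _ (fun i hi' => hlt i (List.mem_reverse.1 hi')),
      (HK_word hv (b + 1) φ h1 hmul _).2, hrange, List.reverse_cons, List.map_append,
      List.prod_append, List.map_singleton, List.prod_singleton, h0,
      hmap _ (fun i hi' => hl1 i (List.mem_reverse.1 hi')), ← Algebra.commutes, mul_assoc,
      ← Algebra.smul_def, map_smul, smul_eq_mul] at h7
    rw [h7]
    refine Finset.sum_congr rfl fun S' _ => ?_
    rw [← List.reverse_cons, ← hrange,
      (RRQ K v v (GenQ_v hv) (b + 1) (b + 1) (vac (b + 1)) S' ha).2, Nat.add_sub_cancel]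

/-! ### products of blocks -/

theorem HK_comm_list {R : Type*} [Ring R] (τ : ℕ → R) (x : R) (l : List ℕ)
    (h : ∀ i ∈ l, Commute x (τ i)) : Commute x (l.map τ).prod := by
  induction l with
  | nil => exact Commute.one_right x
  | cons i l ih =>
    rw [List.map_cons, List.prod_cons]
    exact (h i (by simp)).mul_right (ih fun j hj => h j (by simp [hj]))

theorem HK_sum_le : ∀ α : List ℕ, (∀ a ∈ α, 1 ≤ a) → α.length ≤ α.sum
  | [], _ => le_rfl
  | a :: α, h => by
      have h1 := HK_sum_le α fun b hb => h b (by simp [hb])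
      have h2 := h a (by simp)
      rw [List.length_cons, List.sum_cons]
      omega

theorem HK_trace_idem {K V : Type*} [Field K] [AddCommGroup V] [Module K V] [Module.Finite K V]
    (e : Module.End K V) (he : e * e = e) :
    LinearMap.trace K V e = (finrank K (LinearMap.range e) : K) :=
  LinearMap.IsProj.trace (LinearMap.IsIdempotentElem.isProj_range e he)

theorem HK_main (hHOMQ : HOMQ_stmt) (K : Type) [Field K] (v : K) (hv : Generic v) (V : Type)
    [AddCommGroup V] [Module K V] [Module.Finite K V] (n : ℕ) (τ : ℕ → Module.End K V)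
    (hτ : RelA (v - v⁻¹) n τ) : ∀ (α : List ℕ) (k : ℕ), (∀ a ∈ α, 1 ≤ a) → k + α.sum ≤ n →
    ∀ e : Module.End K V, e * e = e → (∀ i, k < i → i < k + α.sum → Commute (τ i) e) →
    ∃ p : ℤ[X],
      v ^ (α.sum - α.length) * LinearMap.trace K V (((posWord k α).map τ).prod * e) =
        p.eval₂ (Int.castRingHom K) (v ^ 2) ∧
      v ^ (α.sum - α.length) * LinearMap.trace K V (((posWord k α).reverse.map τ).prod * e) =
        p.eval₂ (Int.castRingHom K) (v ^ 2) ∧
      ∀ s, 0 ≤ (-1) ^ (α.sum - α.length + s) * p.coeff s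
  | [], k, _, _, e, he, _ => by
      refine ⟨C (finrank K (LinearMap.range e) : ℤ), ?_, ?_, ?_⟩
      · simp [posWord, HK_trace_idem e he]
      · simp [posWord, HK_trace_idem e he]
      · intro s
        rw [coeff_C]
        split_ifs with h
        · subst h; simp
        · simp
  | a :: α, k, hα, hn, e, he, hc => by
      have ha : 1 ≤ a := hα a (by simp)
      have hα' : ∀ b ∈ α, 1 ≤ b := fun b hb => hα b (by simp [hb])
      rw [List.sum_cons] at hn hc
      have hlen := HK_sum_le α hα'
      have hL : (a :: α).sum - (a :: α).length = (a - 1) + (α.sum - α.length) := by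
        rw [List.sum_cons, List.length_cons]; omega
      rw [hL]
      -- the block
      set σ : ℕ → Module.End K V := fun i => τ (k + i) with hσd
      have hσ : RelA (v - v⁻¹) a σ := by
        refine ⟨fun i h1 h2 => hτ.quad (k + i) (by omega) (by omega),
          fun i h1 h2 => ?_, fun i j h1 h2 h3 => hτ.comm (k + i) (k + j) (by omega) (by omega)
            (by omega)⟩
        have := hτ.braid (k + i) (by omega) (by omega)
        rw [add_assoc] at this
        exact this
      obtain ⟨E, hEE, hEc, hE⟩ := HK_block hHOMQ K v hv V a ha σ hσ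
      have hlet := HK_letters α (k + a) hα'
      have hfar : ∀ i, 1 ≤ i → i < a → ∀ j ∈ posWord (k + a) α, Commute (σ i) (τ j) := by
        intro i h1 h2 j hj
        have h3 := hlet j hj
        exact hτ.comm (k + i) j (by omega) (by omega) (by omega)
      have hce : ∀ i, 1 ≤ i → i < a → Commute (σ i) e := fun i h1 h2 =>
        hc (k + i) (by omega) (by omega)
      have hEe : ∀ j, Commute (E j) e := fun j => hEc j e hce
      have hEt : ∀ j, ∀ i ∈ posWord (k + a) α, Commute (E j) (τ i) := fun j i hi =>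
        hEc j (τ i) fun i' h1 h2 => hfar i' h1 h2 i hi
      -- induction
      have hih : ∀ j, ∃ p : ℤ[X],
          v ^ (α.sum - α.length) *
            LinearMap.trace K V (((posWord (k + a) α).map τ).prod * (E j * e)) =
            p.eval₂ (Int.castRingHom K) (v ^ 2) ∧
          v ^ (α.sum - α.length) *
            LinearMap.trace K V (((posWord (k + a) α).reverse.map τ).prod * (E j * e)) =
            p.eval₂ (Int.castRingHom K) (v ^ 2) ∧
          ∀ s, 0 ≤ (-1) ^ (α.sum - α.length + s) * p.coeff s := by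
        intro j
        refine HK_main hHOMQ K v hv V n τ hτ α (k + a) hα' (by omega) (E j * e) ?_ ?_
        · calc E j * e * (E j * e) = E j * (e * E j) * e := by simp only [mul_assoc]
            _ = E j * (E j * e) * e := by rw [(hEe j).eq]
            _ = (E j * E j) * (e * e) := by simp only [mul_assoc]
            _ = E j * e := by rw [hEE, he]
        · intro i h1 h2
          refine Commute.mul_right ?_ (hc i (by omega) (by omega))
          refine (hEc j (τ i) fun i' h3 h4 => ?_).symm
          exact hτ.comm (k + i') i (by omega) (by omega) (by omega)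
      choose P hP1 hP2 hP3 using hih
      have hword : posWord k (a :: α) = (List.range' 1 (a - 1)).map (k + ·) ++
          posWord (k + a) α := by
        rw [List.map_add_range']
        rfl
      have hfst : ((List.range' 1 (a - 1)).map (k + ·)).map τ = (List.range' 1 (a - 1)).map σ := by
        rw [List.map_map]; rfl
      have hfst' : ((List.range' 1 (a - 1)).map (k + ·)).reverse.map τ =
          (List.range' 1 (a - 1)).reverse.map σ := by
        rw [← List.map_reverse, List.map_map]; rfl
      set Y := ((posWord (k + a) α).map τ).prod with hY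
      set Y' := ((posWord (k + a) α).reverse.map τ).prod with hY'
      have hσY : ∀ i, 1 ≤ i → i < a → Commute (σ i) Y := fun i h1 h2 =>
        HK_comm_list τ (σ i) _ fun j hj => hfar i h1 h2 j hj
      have hσY' : ∀ i, 1 ≤ i → i < a → Commute (σ i) Y' := fun i h1 h2 =>
        HK_comm_list τ (σ i) _ fun j hj => hfar i h1 h2 j (List.mem_reverse.1 hj)
      have hEY : ∀ j, Commute (E j) Y := fun j => HK_comm_list τ (E j) _ fun i hi => hEt j i hi
      have hEY' : ∀ j, Commute (E j) Y' := fun j =>
        HK_comm_list τ (E j) _ fun i hi => hEt j i (List.mem_reverse.1 hi)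
      have h1 := (hE (Y * e) fun i h1 h2 => (hσY i h1 h2).mul_right (hce i h1 h2)).1
      have h2 := (hE (Y' * e) fun i h1 h2 => (hσY' i h1 h2).mul_right (hce i h1 h2)).2
      set p : ℤ[X] := ∑ j ∈ Finset.range a, C ((-1) ^ (a - 1 - j)) * (X ^ j * P j) with hp
      have hev : p.eval₂ (Int.castRingHom K) (v ^ 2) =
          ∑ j ∈ Finset.range a, (-1) ^ (a - 1 - j) * (v ^ 2) ^ j *
            (P j).eval₂ (Int.castRingHom K) (v ^ 2) := by
        rw [hp, eval₂_finset_sum]
        refine Finset.sum_congr rfl fun j _ => ?_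
        rw [eval₂_mul, eval₂_mul, eval₂_C, eval₂_pow, eval₂_X, map_pow, map_neg, map_one, mul_assoc]
      refine ⟨p, ?_, ?_, ?_⟩
      · rw [hword, List.map_append, List.prod_append, hfst, pow_add, mul_assoc _ _ e, mul_right_comm,
          h1, Finset.sum_mul, hev]
        refine Finset.sum_congr rfl fun j _ => ?_
        rw [← hP1 j, ← mul_assoc (E j), (hEY j).eq, mul_assoc Y]
        ring
      · have h3 : ((posWord k (a :: α)).reverse.map τ).prod * e =
            ((List.range' 1 (a - 1)).reverse.map σ).prod * (Y' * e) := by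
          rw [hword, List.reverse_append, List.map_append, List.prod_append, hfst', ← mul_assoc]
          congr 1
          have : Commute Y' ((List.range' 1 (a - 1)).reverse.map σ).prod := by
            refine HK_comm_list σ Y' _ fun i hi => ?_
            rw [List.mem_reverse, List.mem_range'_1] at hi
            exact (hσY' i (by omega) (by omega)).symm
          exact this.eq
        rw [h3, pow_add, mul_right_comm, h2, Finset.sum_mul, hev]
        refine Finset.sum_congr rfl fun j _ => ?_
        rw [← hP2 j, ← mul_assoc (E j), (hEY' j).eq, mul_assoc Y']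
        ring
      · intro s
        rw [hp, finset_sum_coeff, Finset.mul_sum]
        refine Finset.sum_nonneg fun j hj => ?_
        rw [Finset.mem_range] at hj
        rw [coeff_C_mul, coeff_X_pow_mul']
        split_ifs with h
        · have h5 := hP3 j (s - j)
          have h6 : (-1 : ℤ) ^ (a - 1 + (α.sum - α.length) + s) * ((-1) ^ (a - 1 - j) *
              (P j).coeff (s - j)) = (-1) ^ (α.sum - α.length + (s - j)) *
              (P j).coeff (s - j) := by
            rw [← mul_assoc, ← pow_add]
            congr 1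
            have h7 : a - 1 + (α.sum - α.length) + s + (a - 1 - j) =
                (α.sum - α.length + (s - j)) + 2 * (a - 1) := by omega
            rw [h7, pow_add, pow_mul]
            simp
          rw [h6]
          exact h5
        · simp

/-- trace of a product of Coxeter elements of symmetric groups: sign pattern of the two lowest
coefficients -/
theorem HK (hHOMQ : HOMQ_stmt) : HK_stmt := by
  intro K _ _ v hv V _ _ _ n τ hτ α hα hn
  obtain ⟨p, h1, h2, h3⟩ := HK_main hHOMQ K v hv V n τ hτ α 0 hα (by omega) 1 (mul_one 1)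
    fun i _ _ => Commute.one_right _
  rw [mul_one] at h1 h2
  refine ⟨p, h1, h2, ?_, ?_⟩
  · have := h3 0
    rwa [add_zero] at this
  · have := h3 1
    rw [pow_succ] at this
    linarith

end Pool.Agent.helper27.PC
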